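import Mathlib

/-!
# The two-sided action of `S × S` on `S`: criterion, alternating groups, groups of prime order

For a finite group `S` with more than two elements the group `S × S`, acting on `S` by `x ↦ g⁻¹ x h`, is not
synchronizing if and only if there are sets `A`, `B` with more than one element such that each `g⁻¹ A h` meets
`B` in exactly one point. This holds if some `S / H`, `1 < H < S`, has a sharply transitive set in `S`, for example if
`S = H K` is an exact factorization.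

The alternating group of a set with at least four points contains a sharply transitive set, that is, there is a
Latin square of each order `n > 2` whose rows are all even permutations: for odd `n` the translations of
`ℤ / n`, and for `n = 2 m` the rows which arise from `ℤ / m` in four blocks, one of them with two symbols exchanged
if `m` is odd.
-/

open Equiv

namespace Pool.Agent.Results.MP_358f87_al.AlternatingGroups

/-- the image of `A` under `(g, h) : x ↦ g⁻¹ x h` -/
def image {S : Type} [Group S] (g h : S) (A : Set S) : Set S := (fun x => g⁻¹ * x * h) '' A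

/-- `A` meets each part of the partition `ρ` in exactly one point -/
def IsTransversal {S : Type} (ρ : Setoid S) (A : Set S) : Prop := ∀ x, ∃! a, a ∈ A ∧ ρ a x

/-- `ρ` is regular for the group `S × S` -/
def IsRegular {S : Type} [Group S] (ρ : Setoid S) : Prop := ∃ A : Set S, ∀ g h, IsTransversal ρ (image g h A)

/-- `S × S` on `S` is synchronizing -/
def Synchronizing (S : Type) [Group S] : Prop :=
  2 < Nat.card S ∧ ∀ ρ : Setoid S, IsRegular ρ → ρ = ⊥ ∨ ρ = ⊤

theorem mem_image {S : Type} [Group S] (g h : S) (A : Set S) (x : S) : x ∈ image g h A ↔ g * x * h⁻¹ ∈ A := by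
  constructor
  · rintro ⟨y, hy, rfl⟩
    have : g * (g⁻¹ * y * h) * h⁻¹ = y := by group
    show g * (g⁻¹ * y * h) * h⁻¹ ∈ A
    rw [this]; exact hy
  · intro hx
    exact ⟨_, hx, by group⟩

/-- a pair of sets which shows that `S × S` is not synchronizing -/
def Pair (S : Type) [Group S] : Prop :=
  ∃ A B : Set S, A.Nontrivial ∧ B.Nontrivial ∧ ∀ g h : S, ∃! x, x ∈ image g h A ∧ x ∈ B

theorem not_sync_of_pair (S : Type) [Group S] (hp : Pair S) : ¬ Synchronizing S := by
  rintro ⟨-, hs⟩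
  obtain ⟨A, B, hA, hB, hAB⟩ := hp
  -- the part of `x`: the unique `a` in `A` with `x * a ∈ B`
  have hu : ∀ x : S, ∃! a, a ∈ A ∧ x * a ∈ B := by
    intro x
    obtain ⟨y, ⟨hy1, hy2⟩, hy3⟩ := hAB x⁻¹ 1
    rw [mem_image] at hy1
    refine ⟨x⁻¹ * y, ⟨by simpa using hy1, by simpa using hy2⟩, ?_⟩
    rintro a ⟨ha1, ha2⟩
    have := hy3 (x * a) ⟨by rw [mem_image]; simpa using ha1, ha2⟩
    rw [← this]; group
  choose f hf1 hf2 using hu
  let ρ : Setoid S := Setoid.ker f
  have hρ : IsRegular ρ := by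
    refine ⟨A, fun g h x => ?_⟩
    -- the unique `y` in `g⁻¹ A h` with `f y = f x`
    have hfx := hf1 x
    obtain ⟨y, ⟨hy1, hy2⟩, hy3⟩ := hAB g (h * f x)
    rw [mem_image] at hy1
    refine ⟨y * (f x)⁻¹, ⟨?_, ?_⟩, ?_⟩
    · rw [mem_image]
      have : g * (y * (f x)⁻¹) * h⁻¹ = g * y * (h * f x)⁻¹ := by group
      rw [this]; exact hy1
    · show f (y * (f x)⁻¹) = f x
      exact (hf2 _ (f x) ⟨hfx.1, by simpa using hy2⟩).symm
    · rintro z ⟨hz1, hz2⟩
      have hz2' : f z = f x := hz2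
      rw [mem_image] at hz1
      have := hy3 (z * f x) ⟨by
        rw [mem_image]
        have : g * (z * f x) * (h * f x)⁻¹ = g * z * h⁻¹ := by group
        rw [this]; exact hz1, by rw [← hz2']; exact (hf1 z).2⟩
      rw [← this]; group
  rcases hs ρ hρ with h | h
  · -- all parts are singletons
    obtain ⟨b, hb, c, hc, hbc⟩ := hB
    obtain ⟨a, ha, -⟩ := hA
    apply hbc
    have h1 : f (b * a⁻¹) = a := (hf2 _ a ⟨ha, by simpa using hb⟩).symm
    have h2 : f (c * a⁻¹) = a := (hf2 _ a ⟨ha, by simpa using hc⟩).symm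
    have h3 : ρ (b * a⁻¹) (c * a⁻¹) := by
      show f _ = f _
      rw [h1, h2]
    rw [h] at h3
    have h4 : b * a⁻¹ = c * a⁻¹ := h3
    exact mul_right_cancel h4
  · obtain ⟨a, ha, c, hc, hac⟩ := hA
    obtain ⟨b, hb, -⟩ := hB
    apply hac
    have h1 : f (b * a⁻¹) = a := (hf2 _ a ⟨ha, by simpa using hb⟩).symm
    have h2 : f (b * c⁻¹) = c := (hf2 _ c ⟨hc, by simpa using hb⟩).symm
    have h3 : ρ (b * a⁻¹) (b * c⁻¹) := by rw [h]; trivial
    have h4 : f (b * a⁻¹) = f (b * c⁻¹) := h3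
    rw [← h1, ← h2, h4]

theorem pair_of_not_sync (S : Type) [Group S] (hS : 2 < Nat.card S) (h : ¬ Synchronizing S) : Pair S := by
  unfold Synchronizing at h
  push Not at h
  obtain ⟨ρ, ⟨A, hA⟩, h1, h2⟩ := h hS
  -- a part with more than one element
  have hex : ∃ x y, x ≠ y ∧ ρ x y := by
    by_contra hcon
    push Not at hcon
    apply h1
    ext x y
    constructor
    · intro hxy
      by_contra hne
      exact hcon x y hne hxy
    · intro hxy
      have : x = y := hxy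
      subst this
      exact ρ.refl x
  have hex2 : ∃ x y, ¬ ρ x y := by
    by_contra hcon
    push Not at hcon
    apply h2
    ext x y
    exact ⟨fun _ => trivial, fun _ => hcon x y⟩
  obtain ⟨x, y, hxy, hρ⟩ := hex
  obtain ⟨u, v, huv⟩ := hex2
  refine ⟨A, {z | ρ z y}, ?_, ⟨x, hρ, y, ρ.refl y, hxy⟩, ?_⟩
  · obtain ⟨a, ⟨ha1, ha2⟩, -⟩ := hA 1 1 u
    obtain ⟨b, ⟨hb1, hb2⟩, -⟩ := hA 1 1 v
    rw [mem_image] at ha1 hb1
    refine ⟨a, by simpa using ha1, b, by simpa using hb1, ?_⟩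
    rintro rfl
    exact huv (ρ.trans (ρ.symm ha2) hb2)
  · intro g h
    exact hA g h y

/-- sharply transitive sets -/
theorem pair_of_sharp (S : Type) [Group S] (H : Subgroup S) (hH : H ≠ ⊥) (hH' : H ≠ ⊤) (B : Set S)
    (hB : ∀ u v : S ⧸ H, ∃! b, b ∈ B ∧ b • u = v) : Pair S := by
  refine ⟨(H : Set S), B, ?_, ?_, ?_⟩
  · obtain ⟨x, hx, hx1⟩ := H.bot_or_exists_ne_one.resolve_left hH
    exact ⟨x, hx, 1, H.one_mem, hx1⟩
  · obtain ⟨x, hx⟩ : ∃ x, x ∉ H := by
      by_contra hcon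
      push Not at hcon
      exact hH' (Subgroup.eq_top_iff' H |>.mpr hcon)
    obtain ⟨b, ⟨hb1, hb2⟩, -⟩ := hB ((1 : S) : S ⧸ H) ((1 : S) : S ⧸ H)
    obtain ⟨c, ⟨hc1, hc2⟩, -⟩ := hB ((1 : S) : S ⧸ H) ((x : S) : S ⧸ H)
    refine ⟨b, hb1, c, hc1, ?_⟩
    rintro rfl
    rw [hb2] at hc2
    have := QuotientGroup.eq.mp hc2
    simp at this
    exact hx this
  · intro g h
    obtain ⟨b, ⟨hb1, hb2⟩, hb3⟩ := hB ((h⁻¹ : S) : S ⧸ H) ((g⁻¹ : S) : S ⧸ H)
    have key : ∀ x : S, x ∈ image g h (H : Set S) ↔ x • ((h⁻¹ : S) : S ⧸ H) = ((g⁻¹ : S) : S ⧸ H) := by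
      intro x
      rw [mem_image]
      have h1 : x • ((h⁻¹ : S) : S ⧸ H) = ((x * h⁻¹ : S) : S ⧸ H) := rfl
      rw [h1, eq_comm, QuotientGroup.eq]
      simp [mul_assoc]
    refine ⟨b, ⟨(key b).mpr hb2, hb1⟩, ?_⟩
    rintro x ⟨hx1, hx2⟩
    exact hb3 x ⟨hx2, (key x).mp hx1⟩

/-! ### Sharply transitive sets of even permutations -/

/-- there is a sharply transitive set of even permutations of `α` -/
def EvenSharp (α : Type) [Fintype α] [DecidableEq α] : Prop :=
  ∃ B : Set (Perm α), (∀ β ∈ B, Perm.sign β = 1) ∧ ∀ u v : α, ∃! β, β ∈ B ∧ β u = v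

theorem EvenSharp.transport {α β : Type} [Fintype α] [DecidableEq α] [Fintype β] [DecidableEq β]
    (e : α ≃ β) (h : EvenSharp α) : EvenSharp β := by
  obtain ⟨B, h1, h2⟩ := h
  refine ⟨e.permCongr '' B, ?_, ?_⟩
  · rintro _ ⟨γ, hγ, rfl⟩
    rw [Perm.sign_permCongr]; exact h1 γ hγ
  · intro u v
    obtain ⟨γ, ⟨hγ1, hγ2⟩, hγ3⟩ := h2 (e.symm u) (e.symm v)
    refine ⟨e.permCongr γ, ⟨⟨γ, hγ1, rfl⟩, by simp [Equiv.permCongr_apply, hγ2]⟩, ?_⟩
    rintro _ ⟨⟨δ, hδ, rfl⟩, hδ2⟩
    rw [hγ3 δ ⟨hδ, by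
      rw [Equiv.permCongr_apply] at hδ2
      rw [← hδ2, Equiv.symm_apply_apply]⟩]

theorem evenSharp_odd (n : ℕ) [NeZero n] (hn : Odd n) : EvenSharp (ZMod n) := by
  refine ⟨Set.range (fun i : ZMod n => Equiv.addRight i), ?_, ?_⟩
  · rintro _ ⟨i, rfl⟩
    have h1 : (Equiv.addRight i : Perm (ZMod n)) ^ n = 1 := by
      have h2 : ∀ k : ℕ, (Equiv.addRight i : Perm (ZMod n)) ^ k = Equiv.addRight ((k : ZMod n) * i) := by
        intro k
        induction k with
        | zero => ext x; simp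
        | succ k ih =>
          rw [pow_succ, ih]
          apply Equiv.ext
          intro x
          simp only [Perm.mul_apply, Equiv.coe_addRight, Nat.cast_add, Nat.cast_one]
          ring
      rw [h2]
      apply Equiv.ext
      intro x
      simp
    have h2 := congrArg Perm.sign h1
    rw [map_pow, map_one] at h2
    rcases Int.units_eq_one_or (Perm.sign (Equiv.addRight i : Perm (ZMod n))) with h3 | h3
    · exact h3
    · rw [h3, Odd.neg_one_pow hn] at h2
      exact absurd h2 (by decide)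
  · intro u v
    refine ⟨Equiv.addRight (v - u), ⟨⟨_, rfl⟩, by simp⟩, ?_⟩
    rintro _ ⟨⟨i, rfl⟩, hi⟩
    simp only [Equiv.coe_addRight] at hi
    rw [← hi]; simp

/-- the rows of the Latin square of order `2 m` -/
def row (m : ℕ) (κ : Perm (ZMod m)) (c : Bool) (i : ZMod m) : Perm (Bool × ZMod m) :=
  match c with
  | false => prodCongrRight (fun _ : Bool => (Equiv.addRight i : Perm (ZMod m)))
  | true => prodCongrRight (fun b : Bool => if b then κ else 1) *
      prodCongrLeft (fun _ : ZMod m => (Equiv.swap false true : Perm Bool)) *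
      prodCongrRight (fun _ : Bool => (Equiv.addRight i : Perm (ZMod m)))

theorem row_false (m : ℕ) (κ : Perm (ZMod m)) (i : ZMod m) (b : Bool) (x : ZMod m) :
    row m κ false i (b, x) = (b, x + i) := rfl

theorem row_true (m : ℕ) (κ : Perm (ZMod m)) (i : ZMod m) (b : Bool) (x : ZMod m) :
    row m κ true i (b, x) = (!b, if !b then κ (x + i) else x + i) := by
  cases b
  · simp [row, Perm.mul_apply, prodCongrRight, prodCongrLeft]
  · simp [row, Perm.mul_apply, prodCongrRight, prodCongrLeft]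

theorem evenSharp_even (m : ℕ) (hm : 2 ≤ m) [NeZero m] : EvenSharp (Bool × ZMod m) := by
  have hne : (0 : ZMod m) ≠ 1 := by
    haveI : Fact (1 < m) := ⟨hm⟩
    exact zero_ne_one
  obtain ⟨κ, hκ⟩ : ∃ κ : Perm (ZMod m), Perm.sign κ = (-1) ^ m := by
    rcases Nat.even_or_odd m with he | ho
    · exact ⟨1, by rw [he.neg_one_pow]; simp⟩
    · exact ⟨Equiv.swap 0 1, by rw [ho.neg_one_pow]; exact Perm.sign_swap hne⟩
  refine ⟨Set.range (fun q : Bool × ZMod m => row m κ q.1 q.2), ?_, ?_⟩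
  · rintro _ ⟨⟨c, i⟩, rfl⟩
    have h1 : ∀ i : ZMod m, Perm.sign (prodCongrRight (fun _ : Bool => (Equiv.addRight i : Perm (ZMod m)))) = 1 := by
      intro i
      rw [Perm.sign_prodCongrRight]
      simp [Int.units_mul_self]
    cases c
    · exact h1 i
    · show Perm.sign (_ * _ * _) = 1
      rw [map_mul, map_mul, h1, mul_one, Perm.sign_prodCongrRight, Perm.sign_prodCongrLeft]
      simp [hκ, Perm.sign_swap, ← mul_pow]
  · rintro ⟨b, x⟩ ⟨b', y⟩
    by_cases hb : b' = b
    · subst hb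
      refine ⟨row m κ false (y - x), ⟨⟨(false, y - x), rfl⟩, by rw [row_false]; simp⟩, ?_⟩
      rintro _ ⟨⟨⟨c, i⟩, rfl⟩, hi⟩
      cases c
      · simp only [row_false, Prod.mk.injEq, true_and] at hi
        rw [← hi]; simp
      · simp only [row_true, Prod.mk.injEq] at hi
        have := hi.1
        cases b' <;> simp at this
    · have hb' : b' = !b := by cases b <;> cases b' <;> simp_all
      subst hb'
      let i₀ : ZMod m := if !b then κ.symm y - x else y - x
      refine ⟨row m κ true i₀, ⟨⟨(true, i₀), rfl⟩, ?_⟩, ?_⟩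
      · rw [row_true]
        cases b <;> simp [i₀]
      · rintro _ ⟨⟨⟨c, i⟩, rfl⟩, hi⟩
        cases c
        · simp only [row_false, Prod.mk.injEq] at hi
          exact absurd hi.1.symm hb
        · simp only [row_true, Prod.mk.injEq, true_and] at hi
          have : i = i₀ := by
            cases b
            · simp only [Bool.not_false, if_true] at hi
              simp [i₀, ← hi]
            · simp at hi
              simp [i₀, ← hi]
          rw [this]

theorem evenSharp_all (α : Type) [Fintype α] [DecidableEq α] (h : 3 ≤ Fintype.card α) : EvenSharp α := by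
  rcases Nat.even_or_odd (Fintype.card α) with he | ho
  · obtain ⟨m, hm⟩ := he
    haveI : NeZero m := ⟨by omega⟩
    have e : Bool × ZMod m ≃ α := Fintype.equivOfCardEq (by
      rw [Fintype.card_prod, Fintype.card_bool, ZMod.card]; omega)
    exact (evenSharp_even m (by omega)).transport e
  · haveI : NeZero (Fintype.card α) := ⟨by omega⟩
    have e : ZMod (Fintype.card α) ≃ α := Fintype.equivOfCardEq (by rw [ZMod.card])
    exact (evenSharp_odd _ ho).transport e

theorem pair_alternating (n : ℕ) (hn : 4 ≤ n) : Pair (alternatingGroup (Fin n)) := by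
  obtain ⟨B, hB1, hB2⟩ := evenSharp_all (Fin n) (by rw [Fintype.card_fin]; omega)
  let p : Fin n := ⟨0, by omega⟩
  let a : Fin n := ⟨1, by omega⟩
  let b : Fin n := ⟨2, by omega⟩
  let c : Fin n := ⟨3, by omega⟩
  refine ⟨{σ | (σ : Perm (Fin n)) p = p}, {σ | (σ : Perm (Fin n)) ∈ B}, ?_, ?_, ?_⟩
  · let τ : Perm (Fin n) := swap a b * swap b c
    have hτ : Perm.sign τ = 1 := by
      rw [map_mul, Perm.sign_swap, Perm.sign_swap]
      · rfl
      · intro h; simp [b, c] at h
      · intro h; simp [a, b] at h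
    have hab : a ≠ b := by intro h; simp [a, b] at h
    have hca : c ≠ a := by intro h; simp [a, c] at h
    refine ⟨⟨τ, hτ⟩, ?_, 1, rfl, ?_⟩
    · show (swap a b * swap b c) p = p
      have hpa : p ≠ a := by intro h; simp [p, a] at h
      have hpb : p ≠ b := by intro h; simp [p, b] at h
      have hpc : p ≠ c := by intro h; simp [p, c] at h
      rw [Perm.mul_apply, swap_apply_of_ne_of_ne hpb hpc, swap_apply_of_ne_of_ne hpa hpb]
    · intro h
      have h1 : τ = 1 := congrArg Subtype.val h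
      have h2 : τ c = c := by rw [h1]; rfl
      have h3 : τ c = a := by
        show (swap a b * swap b c) c = a
        rw [Perm.mul_apply, swap_apply_right, swap_apply_right]
      exact hca (h2.symm.trans h3)
  · obtain ⟨β, ⟨h1, h2⟩, -⟩ := hB2 p p
    obtain ⟨γ, ⟨h3, h4⟩, -⟩ := hB2 p a
    refine ⟨⟨β, hB1 β h1⟩, h1, ⟨γ, hB1 γ h3⟩, h3, ?_⟩
    intro h
    have h5 : β = γ := congrArg Subtype.val h
    rw [h5, h4] at h2
    simp [p, a] at h2
  · intro g h
    have key : ∀ x : alternatingGroup (Fin n),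
        x ∈ image g h {σ : alternatingGroup (Fin n) | (σ : Perm (Fin n)) p = p} ↔
        (x : Perm (Fin n)) ((h : Perm (Fin n))⁻¹ p) = (g : Perm (Fin n))⁻¹ p := by
      intro x
      rw [mem_image]
      show (g : Perm (Fin n)) ((x : Perm (Fin n)) ((h : Perm (Fin n))⁻¹ p)) = p ↔ _
      rw [Perm.eq_inv_iff_eq]
    obtain ⟨β, ⟨h1, h2⟩, h3⟩ := hB2 ((h : Perm (Fin n))⁻¹ p) ((g : Perm (Fin n))⁻¹ p)
    refine ⟨⟨β, hB1 β h1⟩, ⟨(key _).mpr h2, h1⟩, ?_⟩
    rintro x ⟨hx1, hx2⟩
    apply Subtype.ext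
    exact h3 _ ⟨hx2, (key x).mp hx1⟩

/-- exact factorizations -/
theorem pair_of_complement (S : Type) [Group S] (H K : Subgroup S) (hH : H ≠ ⊥) (hK : K ≠ ⊥)
    (hHK : H.IsComplement' K) : Pair S := by
  refine ⟨(H : Set S), (K : Set S), ?_, ?_, ?_⟩
  · obtain ⟨x, hx, hx1⟩ := H.bot_or_exists_ne_one.resolve_left hH
    exact ⟨x, hx, 1, H.one_mem, hx1⟩
  · obtain ⟨x, hx, hx1⟩ := K.bot_or_exists_ne_one.resolve_left hK
    exact ⟨x, hx, 1, K.one_mem, hx1⟩
  · intro g h
    obtain ⟨⟨⟨k₁, hk₁⟩, ⟨η₁, hη₁⟩⟩, e1, -⟩ := hHK.symm.existsUnique g⁻¹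
    obtain ⟨⟨⟨η₂, hη₂⟩, ⟨k₂, hk₂⟩⟩, e2, -⟩ := hHK.existsUnique h
    simp only at e1 e2
    have hg : g = η₁⁻¹ * k₁⁻¹ := by rw [← inv_inv g, ← e1]; group
    have hdis : ∀ y, y ∈ H → y ∈ K → y = 1 := by
      intro y h1 h2
      have := hHK.disjoint.le_bot (show y ∈ H ⊓ K from ⟨h1, h2⟩)
      exact Subgroup.mem_bot.mp this
    have key : ∀ x : S, x ∈ image g h (H : Set S) ↔ k₁⁻¹ * x * k₂⁻¹ ∈ H := by
      intro x
      rw [mem_image, hg, ← e2]
      show η₁⁻¹ * k₁⁻¹ * x * (η₂ * k₂)⁻¹ ∈ H ↔ _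
      have h3 : η₁⁻¹ * k₁⁻¹ * x * (η₂ * k₂)⁻¹ = η₁⁻¹ * (k₁⁻¹ * x * k₂⁻¹) * η₂⁻¹ := by group
      rw [h3, H.mul_mem_cancel_right (H.inv_mem hη₂), H.mul_mem_cancel_left (H.inv_mem hη₁)]
    refine ⟨k₁ * k₂, ⟨(key _).mpr ?_, K.mul_mem hk₁ hk₂⟩, ?_⟩
    · have : k₁⁻¹ * (k₁ * k₂) * k₂⁻¹ = 1 := by group
      rw [this]; exact H.one_mem
    · rintro x ⟨hx1, hx2⟩
      have h4 := hdis _ ((key x).mp hx1) (K.mul_mem (K.mul_mem (K.inv_mem hk₁) hx2) (K.inv_mem hk₂))
      calc x = k₁ * (k₁⁻¹ * x * k₂⁻¹) * k₂ := by group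
        _ = k₁ * k₂ := by rw [h4, mul_one]

theorem card_of_pair (S : Type) [Group S] [Finite S] (A B : Set S)
    (hAB : ∀ g h : S, ∃! x, x ∈ image g h A ∧ x ∈ B) : Nat.card S = Nat.card A * Nat.card B := by
  rw [← Nat.card_prod]
  symm
  apply Nat.card_eq_of_bijective (fun q : A × B => (q.1 : S) * (q.2 : S)⁻¹)
  constructor
  · rintro ⟨⟨a, ha⟩, ⟨b, hb⟩⟩ ⟨⟨a', ha'⟩, ⟨b', hb'⟩⟩ heq
    simp only at heq
    have h1 : b = b' := by
      apply (hAB (a * b⁻¹) 1).unique
      · exact ⟨by rw [mem_image]; simpa using ha, hb⟩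
      · refine ⟨?_, hb'⟩
        rw [mem_image, heq]; simpa using ha'
    subst h1
    have h2 : a = a' := mul_right_cancel heq
    subst h2
    rfl
  · intro g
    obtain ⟨x, ⟨hx1, hx2⟩, -⟩ := hAB g 1
    rw [mem_image] at hx1
    refine ⟨⟨⟨g * x, by simpa using hx1⟩, ⟨x, hx2⟩⟩, by simp⟩

/-- **The theorem.** -/
theorem result :
    -- the criterion
    (∀ (S : Type) [Group S] [Finite S], 2 < Nat.card S →
      (¬ Synchronizing S ↔ ∃ A B : Set S, A.Nontrivial ∧ B.Nontrivial ∧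
        Nat.card A * Nat.card B = Nat.card S ∧ ∀ g h : S, ∃! x, x ∈ image g h A ∧ x ∈ B)) ∧
    -- sharply transitive sets
    (∀ (S : Type) [Group S] (H : Subgroup S), H ≠ ⊥ → H ≠ ⊤ →
      (∃ B : Set S, ∀ u v : S ⧸ H, ∃! b, b ∈ B ∧ b • u = v) → ¬ Synchronizing S) ∧
    -- exact factorizations
    (∀ (S : Type) [Group S] (H K : Subgroup S), H ≠ ⊥ → K ≠ ⊥ → H.IsComplement' K → ¬ Synchronizing S) ∧
    -- alternating groups
    (∀ n : ℕ, 4 ≤ n → ¬ Synchronizing (alternatingGroup (Fin n))) ∧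
    -- groups of odd prime order
    (∀ (S : Type) [Group S], (Nat.card S).Prime → 2 < Nat.card S → Synchronizing S) := by
  have crit : ∀ (S : Type) [Group S] [Finite S], 2 < Nat.card S →
      (¬ Synchronizing S ↔ ∃ A B : Set S, A.Nontrivial ∧ B.Nontrivial ∧
        Nat.card A * Nat.card B = Nat.card S ∧ ∀ g h : S, ∃! x, x ∈ image g h A ∧ x ∈ B) := by
    intro S _ _ hS
    constructor
    · intro h
      obtain ⟨A, B, h1, h2, h3⟩ := pair_of_not_sync S hS h
      exact ⟨A, B, h1, h2, (card_of_pair S A B h3).symm, h3⟩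
    · rintro ⟨A, B, h1, h2, -, h3⟩
      exact not_sync_of_pair S ⟨A, B, h1, h2, h3⟩
  refine ⟨crit, ?_, ?_, ?_, ?_⟩
  · rintro S _ H h1 h2 ⟨B, hB⟩
    exact not_sync_of_pair S (pair_of_sharp S H h1 h2 B hB)
  · intro S _ H K h1 h2 h3
    exact not_sync_of_pair S (pair_of_complement S H K h1 h2 h3)
  · intro n hn
    exact not_sync_of_pair _ (pair_alternating n hn)
  · intro S _ hp hS
    have hfin : Finite S := Nat.finite_of_card_ne_zero hp.ne_zero
    by_contra hcon
    obtain ⟨A, B, h1, h2, h3, -⟩ := (crit S hS).mp hcon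
    have hA : 1 < Nat.card A := by
      rw [Nat.card_coe_set_eq]
      exact Set.one_lt_ncard_iff_nontrivial.mpr h1
    have hB : 1 < Nat.card B := by
      rw [Nat.card_coe_set_eq]
      exact Set.one_lt_ncard_iff_nontrivial.mpr h2
    rw [← h3] at hp
    exact Nat.not_prime_mul hA.ne' hB.ne' hp

end Pool.Agent.Results.MP_358f87_al.AlternatingGroups
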